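import Pool.Agent.H443CC.Bridge
import Pool.Agent.H443CC.Circle3

/-!
# MP_3d42b9_mp, full answer to Q1: the regular `N`-gon for every `N ≥ 9`

For every `N ≥ 9`, in every non-coalescent limiting central configuration of the planar `1+N`
body problem the `N` infinitesimal bodies sit at the vertices of a regular `N`-gon centred at the
unit mass.
-/

open Pool.Agent.H443CC

theorem Pool.Agent.Results.MP_3d42b9_mp.RegularNGonAll.result :
    ∀ N : ℕ, 9 ≤ N →
      ∀ Q : Fin (N + 1) → ℂ, IsLimitingCC N Q → NonCoalescent N Q → IsRegularNGon N Q := by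
  intro N hN Q hQ hnc
  exact main_of_circle (by omega)
    (fun θ hmono hper r hr hsin hcos heq i => circle_main3 hN hmono hper hr hsin hcos heq i)
    Q hQ hnc
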